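import Mathlib
import Pool.Agent.V11104.MM.Charge

set_option autoImplicit false

/-!
# The measures of Saksman and Webb charge every interval with positive probability

Let `ν_{T,β}` be the random measure `(log T)^(-β²/4) |ζ(1/2 + i x + i ω T)|^β dx` on `[0,1]`, `ω` uniform on
`[0,1]`. For `0 < β < √2` the probability that `ν_{T,β}([a,b]) ≥ c (b - a)` is at least `c (b - a)²` for all
intervals `[a,b]` in `[0,1]` and all large `T`, with `c > 0` depending only on `β`. Hence no measure with
`ν([a,b]) = 0` almost surely is a subsequential limit in distribution of `ν_{T,β}`, for any `a < b`.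

The proof is a second moment argument for the measures restricted to the points of a set of positive proportion on
which the two-point function of `|ζ|^β` has the conjectured order (shifted moments outside a set of small
proportion).
-/

namespace Pool.Agent.Results.MP_9eae41_pr.ChargedIntervals

open Filter MeasureTheory

/-- **Theorem.** For `0 < β < √2` there is `c > 0` such that for all large `T` and all `0 ≤ a < b ≤ 1` the
probability that `(log T)^(-β²/4)` times the integral of `|ζ(1/2 + i x + i ω T)|^β` over `x` in `[a,b]` is at least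
`c (b - a)` is at least `c (b - a)²`, for `ω` uniform on `[0,1]`. -/
theorem result (β : ℝ) (hβ0 : 0 < β) (hβ : β ^ 2 < 2) :
    ∃ c : ℝ, 0 < c ∧ ∀ᶠ T : ℝ in atTop, ∀ a b : ℝ, 0 ≤ a → a < b → b ≤ 1 →
      c * (b - a) ^ 2 ≤ volume.real {w : ℝ | w ∈ Set.Icc (0:ℝ) 1 ∧ c * (b - a) ≤
        Real.log T ^ (-(β ^ 2 / 4)) *
          ∫ x in Set.Icc a b, ‖riemannZeta (1 / 2 + ((x + w * T : ℝ) : ℂ) * Complex.I)‖ ^ β} :=
  Pool.Agent.V11104.MM.charge hβ0.le hβ

end Pool.Agent.Results.MP_9eae41_pr.ChargedIntervals
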